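import Mathlib
import Pool.Agent.H55.Fill

/-! A subspace that fills the countable subproducts of an uncountable product of non-compact
spaces is not paracompact. -/

namespace Pool.Agent.Results.MP_5f6599_gt.NotPara

open Set Filter Topology Pool.Agent.H55.Fill

universe u v

variable {I : Type u} {X : I → Type v} [∀ i, TopologicalSpace (X i)] {D : Set (∀ i, X i)}

theorem dense (hD : Fills D) : Dense D := dense_iff_inter_open.2 fun O hO ⟨x, hx⟩ => by
  obtain ⟨s, hs⟩ := fin_dep hO hx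
  obtain ⟨y, hy, h⟩ := hD.ex s.countable_toSet x
  exact ⟨y, hs y h, hy⟩

theorem retr (hD : Fills D) [ParacompactSpace D] [T2Space D] :
    ∃ r : (∀ i, X i) → D, Continuous r ∧ ∀ z, z ⤳ (r z).1 := by
  have h1 : ∀ z : ∀ i, X i, ∃ x : D, z ⤳ x.1 := fun z => by
    obtain ⟨x, hx, h⟩ := meets hD (fun i => closure {z i}) (fun _ => isClosed_closure)
      fun i => ⟨z i, subset_closure rfl⟩
    exact ⟨⟨x, hx⟩, specializes_pi.2 fun i => specializes_iff_mem_closure.2 (h i)⟩
  choose r hr using h1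
  refine ⟨r, continuous_iff_continuousAt.2 fun z => ?_, hr⟩
  rw [ContinuousAt, (closed_nhds_basis (r z)).tendsto_right_iff]
  rintro V ⟨hV, hVc⟩
  obtain ⟨N, hN, hNo, hz⟩ := mem_nhds_iff.1 hV
  obtain ⟨O, hO, rfl⟩ := isOpen_induced_iff.1 hNo
  filter_upwards [hO.mem_nhds ((hr z).mem_open hO hz)] with w hw
  change r w ∈ V
  rw [← hVc.closure_eq, mem_closure_iff]
  intro N' hN' hw'
  obtain ⟨O', hO', rfl⟩ := isOpen_induced_iff.1 hN'
  obtain ⟨y, ⟨h1, h2⟩, hy⟩ := (dense hD).inter_open_nonempty (O' ∩ O) (hO'.inter hO)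
    ⟨w, (hr w).mem_open hO' hw', hw⟩
  exact ⟨⟨y, hy⟩, h1, hN h2⟩

theorem discr (hD : Fills D) [ParacompactSpace D] [T2Space D] (a : ∀ i, X i) (i : I)
    (hi : ¬ CompactSpace (X i)) : ∃ K : ℕ → Set (X i), (∀ n, (K n).Nonempty) ∧
      (∀ n m, n ≠ m → Disjoint (K n) (K m)) ∧ ∀ S : Set ℕ, IsClosed (⋃ n ∈ S, K n) := by
  classical
  obtain ⟨r, hr, hs⟩ := retr hD
  let g : X i → D := fun t => r (Function.update a i t)
  have hg : Continuous g := hr.comp (continuous_const.update i continuous_id)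
  have hc : ¬ IsCompact (univ : Set (X i)) := fun h => hi ⟨h⟩
  rw [isCompact_iff_finite_subcover] at hc
  push Not at hc
  obtain ⟨ι, U, hU, hcov, hno⟩ := hc
  obtain ⟨V, hVo, hVc, hVl, hVs⟩ := precise_refinement (fun k : ι => {x : D | x.1 i ∈ U k})
    (fun k => (hU k).preimage ((continuous_apply i).comp continuous_subtype_val))
    (eq_univ_of_forall fun x => by simpa using hcov (mem_univ (x.1 i)))
  have hgU : ∀ k t, g t ∈ V k → t ∈ U k := fun k t h => by
    have := (specializes_pi.1 (hs (Function.update a i t)) i).mem_open (hU k) (hVs k h)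
    simpa using this
  obtain ⟨t, -, ht⟩ := exists_seq_of_forall_finset_exists (fun _ : X i => True)
    (fun x y => ∀ k, g x ∈ V k → g y ∉ V k) fun s _ => by
      have hf : (⋃ x ∈ s, {k | g x ∈ V k}).Finite :=
        s.finite_toSet.biUnion fun x _ => hVl.point_finite (g x)
      obtain ⟨y, -, hy⟩ := not_subset.1 (hno hf.toFinset)
      refine ⟨y, trivial, fun x hx k hk hk' => hy ?_⟩
      exact mem_iUnion₂.2 ⟨k, hf.mem_toFinset.2 (mem_iUnion₂.2 ⟨x, hx, hk⟩), hgU k y hk'⟩
  have hk : ∀ n, ∃ k, g (t n) ∈ V k := fun n => mem_iUnion.1 (hVc ▸ mem_univ _)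
  choose k hk using hk
  have hone : ∀ n m j, g (t n) ∈ V j → g (t m) ∈ V j → n = m := fun n m j h1 h2 => by
    by_contra hnm
    rcases lt_or_gt_of_ne hnm with h | h
    · exact ht _ _ h j h1 h2
    · exact ht _ _ h j h2 h1
  have hlf : LocallyFinite fun n => ({g (t n)} : Set D) :=
    (hVl.comp_injective (g := k) fun n m e => hone n m _ (hk n) (e ▸ hk m)).subset
      fun n => singleton_subset_iff.2 (hk n)
  refine ⟨fun n => g ⁻¹' {g (t n)}, fun n => ⟨t n, rfl⟩, fun n m hnm => ?_, fun S => ?_⟩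
  · refine disjoint_left.2 fun x h1 h2 => hnm (hone n m _ (hk n) ?_)
    rw [← mem_singleton_iff.1 h2, mem_singleton_iff.1 h1]
    exact hk n
  · rw [← preimage_iUnion₂, biUnion_eq_iUnion]
    exact ((hlf.comp_injective Subtype.val_injective).isClosed_iUnion
      fun _ => isClosed_singleton).preimage hg

theorem result (I : Type u) (X : I → Type v) [∀ i, TopologicalSpace (X i)] [Uncountable I]
    (hX : ∀ i, ¬ CompactSpace (X i)) (D : Set (∀ i, X i)) (hD : Fills D) :
    ¬ (T2Space D ∧ ParacompactSpace D) := by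
  classical
  rintro ⟨h2, hp⟩
  have hne : ∀ i, Nonempty (X i) := fun i => by
    by_contra h
    rw [not_nonempty_iff] at h
    exact hX i inferInstance
  choose K hK1 hK2 hK3 using fun i => discr hD (fun i => (hne i).some) i (hX i)
  choose z hz using hK1
  let G : Finset I → Set (∀ i, X i) := fun J =>
    {x | ∃ n : I → ℕ, InjOn n J ∧ ∀ i ∈ J, x i ∈ K i (n i)}
  have hG : ∀ J, G J = (⋂ i ∈ J, {x | x i ∈ ⋃ n ∈ univ, K i n}) ∩ ⋂ i ∈ J, ⋂ j ∈ J, ⋂ (_ : i ≠ j),
      ⋂ n, ({x | x i ∈ ⋃ m ∈ ({n}ᶜ : Set ℕ), K i m} ∪ {x | x j ∈ ⋃ m ∈ ({n}ᶜ : Set ℕ), K j m}) := by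
    intro J
    ext x
    simp only [G, mem_inter_iff, mem_iInter, mem_union, mem_iUnion, mem_setOf_eq, mem_univ,
      mem_compl_iff, mem_singleton_iff, exists_prop, true_and]
    constructor
    · rintro ⟨n, h1, h2⟩
      refine ⟨fun i hi => ⟨_, h2 i hi⟩, fun i hi j hj hij m => ?_⟩
      by_cases h : n i = m
      · exact Or.inr ⟨n j, fun e => hij (h1 hi hj (h.trans e.symm)), h2 j hj⟩
      · exact Or.inl ⟨n i, h, h2 i hi⟩
    · rintro ⟨h1, h2⟩
      choose! n hn using h1
      refine ⟨n, fun i hi j hj e => ?_, hn⟩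
      by_contra hij
      rcases h2 i hi j hj hij (n i) with ⟨m, h3, h4⟩ | ⟨m, h3, h4⟩
      · exact disjoint_left.1 (hK2 i _ _ h3) h4 (hn i hi)
      · exact disjoint_left.1 (hK2 j _ _ h3) h4 (e ▸ hn j hj)
  obtain ⟨x, -, hx⟩ := main hD G
    (fun J => by
      rw [hG]
      refine (isClosed_biInter fun i _ => (hK3 i _).preimage (continuous_apply i)).inter ?_
      refine isClosed_biInter fun i _ => isClosed_biInter fun j _ => isClosed_iInter fun _ =>
        isClosed_iInter fun n => ?_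
      exact ((hK3 i _).preimage (continuous_apply i)).union
        ((hK3 j _).preimage (continuous_apply j)))
    (fun J x y h ⟨n, h1, h2⟩ => ⟨n, h1, fun i hi => h i hi ▸ h2 i hi⟩)
    (fun J J' h x ⟨n, h1, h2⟩ => ⟨n, h1.mono h, fun i hi => h2 i (h hi)⟩)
    (fun J J' x _ ⟨n, h1, h2⟩ => by
      obtain ⟨e, he⟩ := Set.countable_iff_exists_injOn.1 J'.countable_toSet
      let n' : I → ℕ := fun i => if i ∈ J then n i else J.sup n + 1 + e i
      refine ⟨fun i => if i ∈ J then x i else z i (n' i), ⟨n', fun i hi j hj hij => ?_,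
        fun i _ => ?_⟩, fun i hi => if_pos hi⟩
      · by_cases h3 : i ∈ J <;> by_cases h4 : j ∈ J <;> simp only [n', h3, h4, if_true, if_false] at hij
        · exact h1 h3 h4 hij
        · have := Finset.le_sup (f := n) h3
          omega
        · have := Finset.le_sup (f := n) h4
          omega
        · exact he hi hj (by omega)
      · by_cases h3 : i ∈ J
        · simpa [n', h3] using h2 i h3
        · simpa [h3] using hz i (n' i))
    ⟨fun i => z i 0, fun _ => 0, by simp, by simp⟩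
  have h1 : ∀ i, ∃ n, x i ∈ K i n := fun i => by
    obtain ⟨n, -, h⟩ := hx {i}
    exact ⟨_, h i (by simp)⟩
  choose n hn using h1
  refine not_countable (α := I) (Function.Injective.countable (f := n) fun i j e => ?_)
  obtain ⟨m, h3, h4⟩ := hx {i, j}
  have h5 : ∀ l ∈ ({i, j} : Finset I), m l = n l := fun l hl => by
    by_contra h
    exact disjoint_left.1 (hK2 l _ _ h) (h4 l hl) (hn l)
  exact h3 (by simp) (by simp) (by rw [h5 i (by simp), h5 j (by simp), e])

end Pool.Agent.Results.MP_5f6599_gt.NotPara
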